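import Pool.Agent.H13.Symm.Equiv

/-! Failure of the rectangle statement from cardinal arithmetic (Rothberger style). -/

set_option autoImplicit false

namespace Pool.Agent.H13.Symm

open Set Cardinal

/-- countably generated sigma-algebra -/
abbrev gen {α : Type} (A : ℕ → Set α) : MeasurableSpace α := MeasurableSpace.generateFrom (range A)

theorem sections (Q : Set (ℝ × ℝ)) (hQ : @MeasurableSet (ℝ × ℝ) rc Q) :
    ∃ A : ℕ → Set ℝ, ∀ y : ℝ, @MeasurableSet ℝ (gen A) {x | (x, y) ∈ Q} := by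
  classical
  refine MeasurableSpace.generateFrom_induction _
    (fun Q _ => ∃ A : ℕ → Set ℝ, ∀ y : ℝ, @MeasurableSet ℝ (gen A) {x | (x, y) ∈ Q})
    ?_ ?_ ?_ ?_ Q hQ
  · rintro _ ⟨A, C, rfl⟩ _
    refine ⟨fun _ => A, fun y => ?_⟩
    by_cases hy : y ∈ C
    · have : {x | (x, y) ∈ A ×ˢ C} = A := by
        ext x; exact ⟨fun h => h.1, fun h => ⟨h, hy⟩⟩
      rw [this]
      exact MeasurableSpace.measurableSet_generateFrom ⟨0, rfl⟩
    · have : {x | (x, y) ∈ A ×ˢ C} = ∅ := by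
        ext x; exact ⟨fun h => absurd h.2 hy, fun h => absurd h (notMem_empty x)⟩
      rw [this]
      exact @MeasurableSet.empty _ (gen fun _ => A)
  · refine ⟨fun _ => ∅, fun y => ?_⟩
    have : {x : ℝ | (x, y) ∈ (∅ : Set (ℝ × ℝ))} = ∅ := by
      ext x; exact ⟨fun h => absurd h (notMem_empty _), fun h => absurd h (notMem_empty x)⟩
    rw [this]
    exact @MeasurableSet.empty _ (gen fun _ => ∅)
  · rintro Q _ ⟨A, hA⟩
    exact ⟨A, fun y => (hA y).compl⟩
  · intro f _ hf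
    choose A hA using hf
    refine ⟨fun k => A k.unpair.1 k.unpair.2, fun y => ?_⟩
    have hle : ∀ n, gen (A n) ≤ gen (fun k => A k.unpair.1 k.unpair.2) := by
      intro n
      refine MeasurableSpace.generateFrom_mono ?_
      rintro _ ⟨m, rfl⟩
      exact ⟨Nat.pair n m, by simp⟩
    have : {x : ℝ | (x, y) ∈ ⋃ n, f n} = ⋃ n, {x : ℝ | (x, y) ∈ f n} := by
      ext x
      simp only [mem_iUnion, mem_setOf_eq]
    rw [this]
    exact MeasurableSet.iUnion fun n => hle n _ (hA n y)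

theorem rothberger (Λ : Type) (h1 : #Λ ≤ 𝔠) (h2 : 𝔠 < (2 : Cardinal.{0}) ^ #Λ)
    (h3 : ((2 : Cardinal.{0}) ^ #Λ).ord.cof ≤ 𝔠)
    (hK : ∀ Q : Set (ℝ × ℝ), @MeasurableSet (ℝ × ℝ) rc Q) : False := by
  classical
  set μ : Cardinal.{0} := (2 : Cardinal.{0}) ^ #Λ with hμ
  have hμinf : ℵ₀ ≤ μ := aleph0_le_continuum.trans h2.le
  have hΛ : ℵ₀ ≤ #Λ := by
    by_contra hcon
    rw [not_le] at hcon
    have : μ < ℵ₀ := Cardinal.power_lt_aleph0 (Cardinal.natCast_lt_aleph0 (n := 2)) hcon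
    exact absurd hμinf (not_le.2 this)
  have hset : #(Set Λ) = μ := Cardinal.mk_set
  have hC : #(ℕ → Set Λ) = μ := by
    rw [← Cardinal.power_def, Cardinal.mk_nat, hset, hμ, ← Cardinal.power_mul,
      Cardinal.mul_aleph0_eq hΛ]
  obtain ⟨j⟩ : Nonempty (Λ ↪ ℝ) := by
    rw [← Cardinal.le_def, Cardinal.mk_real]; exact h1
  have hP : #(μ.ord.ToType) = μ := Cardinal.mk_ord_toType _
  obtain ⟨g⟩ : Nonempty ((ℕ → Set Λ) ↪ μ.ord.ToType) := by
    rw [← Cardinal.le_def, hC, hP]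
  obtain ⟨s, hs, hsc⟩ := Order.exists_cof_eq (α := μ.ord.ToType)
  rw [Ordinal.cof_toType] at hsc
  obtain ⟨i⟩ : Nonempty (s ↪ ℝ) := by
    rw [← Cardinal.le_def, Cardinal.mk_real, hsc]; exact h3
  let SS : (ℕ → Set Λ) → Set (Set Λ) := fun A => {S | @MeasurableSet Λ (gen A) S}
  have hSS : ∀ A, #(SS A) ≤ 𝔠 := by
    intro A
    refine MeasurableSpace.cardinal_measurableSet_le_continuum ?_
    exact (Cardinal.mk_le_aleph0_iff.2 (countable_range A).to_subtype).trans aleph0_le_continuum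
  have hex : ∀ y : s, ∃ R : Set Λ, ∀ A, g A ≤ (y : μ.ord.ToType) → R ∉ SS A := by
    intro y
    by_contra hcon
    push Not at hcon
    let I : Set (ℕ → Set Λ) := {A | g A ≤ (y : μ.ord.ToType)}
    have hI : #I < μ := by
      have ha : #I ≤ #(Iic (y : μ.ord.ToType)) :=
        Cardinal.mk_le_of_injective (f := fun A : I => (⟨g A, A.2⟩ : Iic (y : μ.ord.ToType)))
          (fun A B h => Subtype.ext (g.injective (congrArg Subtype.val h)))
      have hb : #(Iic (y : μ.ord.ToType)) ≤ #(Iio (y : μ.ord.ToType)) + 1 := by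
        rw [← Iio_insert]
        exact Cardinal.mk_insert_le
      have hc : #(Iio (y : μ.ord.ToType)) < μ := Cardinal.mk_Iio_toType_ord_lt _
      exact (ha.trans hb).trans_lt
        (Cardinal.add_lt_of_lt hμinf hc (Cardinal.one_lt_aleph0.trans_le hμinf))
    have huniv : (univ : Set (Set Λ)) ⊆ ⋃ A ∈ I, SS A := by
      intro R _
      obtain ⟨A, hA, hR⟩ := hcon R
      exact mem_biUnion (show A ∈ I from hA) hR
    have h5 : μ ≤ #(⋃ A ∈ I, SS A : Set (Set Λ)) := by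
      rw [← hset, ← Cardinal.mk_univ]
      exact Cardinal.mk_le_mk_of_subset huniv
    have h6 : #(⋃ A ∈ I, SS A : Set (Set Λ)) ≤ #I * 𝔠 := by
      refine (Cardinal.mk_biUnion_le SS I).trans ?_
      exact mul_le_mul' le_rfl (ciSup_le' fun A => hSS A)
    exact absurd (h5.trans h6) (not_le.2 (Cardinal.mul_lt_of_lt hμinf hI h2))
  choose R hR using hex
  let Q : Set (ℝ × ℝ) := {z | ∃ x : Λ, ∃ y : s, z = (j x, i y) ∧ x ∈ R y}
  obtain ⟨A, hA⟩ := sections Q (hK Q)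
  obtain ⟨y, hys, hy⟩ := hs (g fun n => j ⁻¹' (A n))
  have hmeas : @Measurable Λ ℝ (gen fun n => j ⁻¹' (A n)) (gen A) j := by
    refine @measurable_generateFrom Λ ℝ (gen fun n => j ⁻¹' (A n)) _ j ?_
    rintro _ ⟨n, rfl⟩
    exact MeasurableSpace.measurableSet_generateFrom ⟨n, rfl⟩
  have h7 := hmeas (hA (i ⟨y, hys⟩))
  have h8 : j ⁻¹' {x | (x, i ⟨y, hys⟩) ∈ Q} = R ⟨y, hys⟩ := by
    ext x
    constructor
    · rintro ⟨x', y', h, hx'⟩
      have ha : j x = j x' := congrArg Prod.fst h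
      have hb : i ⟨y, hys⟩ = i y' := congrArg Prod.snd h
      rw [j.injective ha, i.injective hb]
      exact hx'
    · intro hx
      exact ⟨x, ⟨y, hys⟩, rfl, hx⟩
  rw [h8] at h7
  exact hR ⟨y, hys⟩ _ hy h7

end Pool.Agent.H13.Symm
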