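import Mathlib

/-! Symmetric sets of cardinality at most aleph_1 lie in the sigma-algebra generated by the
additive subgroups of the reals. -/

set_option autoImplicit false

namespace Pool.Agent.H13.Symm

open Set Cardinal

/-- the sigma-algebra generated by additive subgroups -/
abbrev mg : MeasurableSpace ℝ :=
  MeasurableSpace.generateFrom {S : Set ℝ | ∃ G : AddSubgroup ℝ, (G : Set ℝ) = S}

theorem meas_grp (G : AddSubgroup ℝ) : @MeasurableSet ℝ mg (G : Set ℝ) :=
  MeasurableSpace.measurableSet_generateFrom ⟨G, rfl⟩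

section basis
variable {ι : Type} (b : Module.Basis ι ℚ ℝ)

/-- reals with support in `S` -/
def W (S : Set ι) : AddSubgroup ℝ where
  carrier := {x | ∀ i, i ∉ S → b.repr x i = 0}
  zero_mem' := by intro i _; simp
  add_mem' := by
    intro x y hx hy i hi
    rw [map_add, Finsupp.add_apply, hx i hi, hy i hi, add_zero]
  neg_mem' := by
    intro x hx i hi
    rw [map_neg, Finsupp.neg_apply, hx i hi, neg_zero]

/-- reals with all coordinates in `kℤ` -/
def M (k : ℕ) : AddSubgroup ℝ where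
  carrier := {x | ∀ i, ∃ z : ℤ, b.repr x i = k * z}
  zero_mem' := by intro i; exact ⟨0, by simp⟩
  add_mem' := by
    intro x y hx hy i
    obtain ⟨u, hu⟩ := hx i
    obtain ⟨v, hv⟩ := hy i
    exact ⟨u + v, by rw [map_add, Finsupp.add_apply, hu, hv]; push_cast; ring⟩
  neg_mem' := by
    intro x hx i
    obtain ⟨u, hu⟩ := hx i
    exact ⟨-u, by rw [map_neg, Finsupp.neg_apply, hu]; push_cast; ring⟩

theorem mem_W (S : Set ι) (x : ℝ) : x ∈ W b S ↔ ∀ i, i ∉ S → b.repr x i = 0 := Iff.rfl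
theorem mem_M (k : ℕ) (x : ℝ) : x ∈ M b k ↔ ∀ i, ∃ z : ℤ, b.repr x i = k * z := Iff.rfl

/-- the defining set -/
def R (T : Set ι) : Set ℝ :=
  (W b T : Set ℝ) ∩ (M b 1 : Set ℝ) ∩ (⋂ k : ℕ, (M b (k + 2) : Set ℝ)ᶜ) ∩
    ⋂ q : ℚ, ((W b {i | b i < q} : Set ℝ) ∪ (W b {i | (q : ℝ) ≤ b i} : Set ℝ))

theorem R_meas (T : Set ι) : @MeasurableSet ℝ mg (R b T) := by
  refine MeasurableSet.inter (MeasurableSet.inter (MeasurableSet.inter (meas_grp _) (meas_grp _))
    ?_) ?_
  · exact MeasurableSet.iInter fun k => (meas_grp _).compl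
  · exact MeasurableSet.iInter fun q => (meas_grp _).union (meas_grp _)

theorem R_neg (T : Set ι) (x : ℝ) : -x ∈ R b T ↔ x ∈ R b T := by
  unfold R
  simp only [mem_inter_iff, mem_iInter, mem_compl_iff, mem_union, SetLike.mem_coe, neg_mem_iff]

theorem b_mem (T : Set ι) {i : ι} (hi : i ∈ T) : b i ∈ R b T := by
  classical
  have hr : ∀ j, b.repr (b i) j = if i = j then 1 else 0 := by
    intro j; rw [Module.Basis.repr_self, Finsupp.single_apply]
  have hW : ∀ S : Set ι, i ∈ S → b i ∈ W b S := by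
    intro S hS
    rw [mem_W]
    intro j hj
    rw [hr, if_neg]
    rintro rfl
    exact hj hS
  refine ⟨⟨⟨hW T hi, ?_⟩, ?_⟩, ?_⟩
  · show b i ∈ M b 1
    rw [mem_M]
    intro j
    rw [hr]
    by_cases h : i = j
    · exact ⟨1, by simp [h]⟩
    · exact ⟨0, by simp [h]⟩
  · rw [mem_iInter]
    intro k hk
    have hk' : b i ∈ M b (k + 2) := hk
    rw [mem_M] at hk'
    obtain ⟨z, hz⟩ := hk' i
    rw [hr, if_pos rfl] at hz
    have hz' : (1 : ℤ) = ((k + 2 : ℕ) : ℤ) * z := by exact_mod_cast hz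
    have : ((k + 2 : ℕ) : ℤ) ∣ 1 := ⟨z, hz'⟩
    have h2 := Int.le_of_dvd one_pos this
    push_cast at h2
    omega
  · rw [mem_iInter]
    intro q
    rcases lt_or_ge (b i) (q : ℝ) with h | h
    · exact Or.inl (hW _ h)
    · exact Or.inr (hW _ h)

theorem R_eq (T : Set ι) : R b T = {x | ∃ i ∈ T, x = b i ∨ x = - b i} := by
  classical
  ext x
  constructor
  · rintro ⟨⟨⟨hT, h1⟩, hk⟩, hq⟩
    have hT' : x ∈ W b T := hT
    have h1' : x ∈ M b 1 := h1
    rw [mem_W] at hT'
    rw [mem_M] at h1'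
    rw [mem_iInter] at hk hq
    have hne : ∃ i, b.repr x i ≠ 0 := by
      by_contra hcon
      push Not at hcon
      refine hk 0 ?_
      show x ∈ M b (0 + 2)
      rw [mem_M]
      intro i
      exact ⟨0, by rw [hcon i]; simp⟩
    obtain ⟨i, hi⟩ := hne
    have hother : ∀ j, j ≠ i → b.repr x j = 0 := by
      intro j hj
      by_contra hxj
      have hbne : b i ≠ b j := fun h => hj (b.injective h).symm
      have key : ∀ u v : ι, b.repr x u ≠ 0 → b.repr x v ≠ 0 → b u < b v → False := by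
        intro u v hu hv huv
        obtain ⟨q, hq1, hq2⟩ := exists_rat_btwn huv
        rcases hq q with h | h
        · have h' : x ∈ W b {i | b i < q} := h
          rw [mem_W] at h'
          exact hv (h' v (by
            show ¬ (b v < (q : ℝ))
            exact not_lt.2 hq2.le))
        · have h' : x ∈ W b {i | (q : ℝ) ≤ b i} := h
          rw [mem_W] at h'
          exact hu (h' u (by
            show ¬ ((q : ℝ) ≤ b u)
            exact not_le.2 hq1))
      rcases lt_or_gt_of_ne hbne with h | h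
      · exact key i j hi hxj h
      · exact key j i hxj hi h
    obtain ⟨z, hz⟩ := h1' i
    rw [Nat.cast_one, one_mul] at hz
    have hx : x = (z : ℝ) * b i := by
      have h2 : b.repr x = b.repr ((z : ℚ) • b i) := by
        ext j
        rw [map_smul, Finsupp.smul_apply, Module.Basis.repr_self, Finsupp.single_apply]
        by_cases hij : i = j
        · subst hij; rw [hz]; simp
        · rw [hother j (Ne.symm hij), if_neg hij]; simp
      have h3 := b.repr.injective h2
      rw [h3, Rat.smul_def]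
      push_cast
      rfl
    have hiT : i ∈ T := by
      by_contra h
      exact hi (hT' i h)
    have hz1 : z = 1 ∨ z = -1 := by
      by_contra hcon
      push Not at hcon
      have hz0 : z ≠ 0 := by
        rintro rfl
        rw [Int.cast_zero] at hz
        exact hi hz
      have h2 : 2 ≤ z.natAbs := by omega
      refine hk (z.natAbs - 2) ?_
      show x ∈ M b (z.natAbs - 2 + 2)
      rw [Nat.sub_add_cancel h2, mem_M]
      intro j
      by_cases hij : j = i
      · subst hij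
        refine ⟨z.sign, ?_⟩
        rw [hz]
        have h9 : ((z.natAbs : ℕ) : ℤ) * z.sign = z := by
          rw [mul_comm]; exact Int.sign_mul_natAbs z
        have h10 : (((z.natAbs : ℕ) : ℤ) : ℚ) * ((z.sign : ℤ) : ℚ) = (z : ℚ) := by
          rw [← Int.cast_mul, h9]
        rw [Int.cast_natCast] at h10
        exact h10.symm
      · exact ⟨0, by rw [hother j hij]; simp⟩
    refine ⟨i, hiT, ?_⟩
    rcases hz1 with rfl | rfl
    · left; rw [hx]; simp
    · right; rw [hx]; simp
  · rintro ⟨i, hi, rfl | rfl⟩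
    · exact b_mem b T hi
    · rw [R_neg]; exact b_mem b T hi

end basis

theorem indep_meas (A : Set ℝ) (hA : LinearIndepOn ℚ id A) :
    @MeasurableSet ℝ mg {x | x ∈ A ∨ -x ∈ A} := by
  have h1 := R_meas (Module.Basis.extend hA) {i | (i : ℝ) ∈ A}
  rw [R_eq] at h1
  convert h1 using 1
  ext x
  constructor
  · rintro (h | h)
    · exact ⟨⟨x, Module.Basis.subset_extend hA h⟩, h, Or.inl (by simp)⟩
    · exact ⟨⟨-x, Module.Basis.subset_extend hA h⟩, h, Or.inr (by simp)⟩
  · rintro ⟨i, hi, h | h⟩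
    · left
      rw [h, Module.Basis.extend_apply_self]; exact hi
    · right
      rw [h, Module.Basis.extend_apply_self, neg_neg]; exact hi

theorem span_countable (S : Set ℝ) (hS : S.Countable) :
    ((Submodule.span ℚ S : Submodule ℚ ℝ) : Set ℝ).Countable := by
  have : Countable S := hS
  have h : ((Submodule.span ℚ S : Submodule ℚ ℝ) : Set ℝ) =
      range (Finsupp.linearCombination ℚ ((↑) : S → ℝ)) := by
    rw [← LinearMap.coe_range, Finsupp.range_linearCombination, Subtype.range_coe]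
  rw [h]
  exact countable_range _

/-- Erdos-Kakutani decomposition -/
theorem decomp (Z : Set ℝ) {κ : Type} [LinearOrder κ] [WellFoundedLT κ]
    (hκ : ∀ i : κ, (Iic i).Countable) (f : ℝ → κ) (hf : InjOn f Z) :
    ∃ P : ℕ → Set ℝ, (∀ n, LinearIndepOn ℚ id (P n)) ∧ (∀ n, P n ⊆ Z) ∧
      ∀ x ∈ Z, x ≠ 0 → ∃ n, x ∈ P n := by
  classical
  let Zi : κ → Set ℝ := fun i => {y | y ∈ Z ∧ f y ≤ i}
  have hZc : ∀ i, (Zi i).Countable := by
    intro i
    exact MapsTo.countable_of_injOn (f := f) (t := Iic i) (fun y hy => hy.2)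
      (hf.mono fun y hy => hy.1) (hκ i)
  let V : κ → Submodule ℚ ℝ := fun i => Submodule.span ℚ (Zi i)
  have hVc : ∀ i, ((V i : Submodule ℚ ℝ) : Set ℝ).Countable := fun i => span_countable _ (hZc i)
  have hVmono : Monotone V := by
    intro i j hij
    exact Submodule.span_mono fun y hy => ⟨hy.1, hy.2.trans hij⟩
  have he : ∀ i, ∃ e : ℝ → ℕ, InjOn e ((V i : Submodule ℚ ℝ) : Set ℝ) := fun i =>
    countable_iff_exists_injOn.1 (hVc i)
  choose e he using he
  let ρ : ℝ → κ := fun x => if h : {i | x ∈ V i}.Nonempty then WellFounded.min wellFounded_lt _ h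
    else f x
  have hρ : ∀ x ∈ Z, x ∈ V (ρ x) ∧ ∀ j, x ∈ V j → ρ x ≤ j := by
    intro x hx
    have hne : {i | x ∈ V i}.Nonempty := ⟨f x, Submodule.subset_span ⟨hx, le_rfl⟩⟩
    have : ρ x = WellFounded.min wellFounded_lt _ hne := dif_pos hne
    rw [this]
    refine ⟨WellFounded.min_mem wellFounded_lt _ hne, fun j hj => ?_⟩
    exact not_lt.1 (WellFounded.not_lt_min wellFounded_lt _ (show j ∈ {i | x ∈ V i} from hj))
  let P : ℕ → Set ℝ := fun n => {x | x ∈ Z ∧ x ≠ 0 ∧ e (ρ x) x = n}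
  refine ⟨P, ?_, fun n x hx => hx.1, fun x hx h0 => ⟨e (ρ x) x, hx, h0, rfl⟩⟩
  intro n
  -- injectivity of ρ on P n
  have hinj : ∀ x ∈ P n, ∀ y ∈ P n, ρ x = ρ y → x = y := by
    intro x hx y hy hxy
    refine he (ρ x) (hρ x hx.1).1 (by rw [hxy]; exact (hρ y hy.1).1) ?_
    rw [hx.2.2, hxy, hy.2.2]
  rw [LinearIndepOn, linearIndependent_iff']
  intro s g hg
  by_contra hcon
  push Not at hcon
  let s' := s.filter (fun i => g i ≠ 0)
  have hs' : s'.Nonempty := by
    obtain ⟨i, hi, hi'⟩ := hcon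
    exact ⟨i, Finset.mem_filter.2 ⟨hi, hi'⟩⟩
  obtain ⟨i, hi, hmax⟩ := Finset.exists_max_image s' (fun i => ρ i) hs'
  have hgi : g i ≠ 0 := (Finset.mem_filter.1 hi).2
  have hlt : ∀ j ∈ s', j ≠ i → ρ j < ρ i := by
    intro j hj hji
    refine lt_of_le_of_ne (hmax j hj) ?_
    intro h
    exact hji (Subtype.ext (hinj j j.2 i i.2 h))
  -- the sum over s' is 0
  have hsum : ∑ j ∈ s', g j • (j : ℝ) = 0 := by
    rw [Finset.sum_filter_of_ne]
    · exact hg
    · intro j _ hj h
      exact hj (by rw [h, zero_smul])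
  rw [← Finset.add_sum_erase s' _ hi] at hsum
  -- elements of the rest lie in V j with j < ρ i
  have hrest : ∃ S : Finset ℝ, (∀ y ∈ S, y ∈ Z ∧ f y < ρ i) ∧
      ∑ j ∈ s'.erase i, g j • (j : ℝ) ∈ Submodule.span ℚ (S : Set ℝ) := by
    have hmem : ∑ j ∈ s'.erase i, g j • (j : ℝ) ∈
        Submodule.span ℚ {y | y ∈ Z ∧ f y < ρ i} := by
      refine Submodule.sum_mem _ fun j hj => Submodule.smul_mem _ _ ?_
      have hj' := Finset.mem_erase.1 hj
      have h1 := (hρ j j.2.1).1
      refine Submodule.span_mono ?_ h1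
      intro y hy
      exact ⟨hy.1, lt_of_le_of_lt hy.2 (hlt j hj'.2 hj'.1)⟩
    obtain ⟨S, hS1, hS2⟩ := Submodule.mem_span_finite_of_mem_span hmem
    exact ⟨S, fun y hy => hS1 hy, hS2⟩
  obtain ⟨S, hS1, hS2⟩ := hrest
  have hxi : (i : ℝ) ∈ Submodule.span ℚ (S : Set ℝ) := by
    have h1 : g i • (i : ℝ) ∈ Submodule.span ℚ (S : Set ℝ) := by
      have : g i • (i : ℝ) = - ∑ j ∈ s'.erase i, g j • (j : ℝ) := by
        linarith
      rw [this]
      exact Submodule.neg_mem _ hS2
    have h2 := Submodule.smul_mem (Submodule.span ℚ (S : Set ℝ)) (g i)⁻¹ h1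
    rwa [smul_smul, inv_mul_cancel₀ hgi, one_smul] at h2
  rcases S.eq_empty_or_nonempty with hS | hS
  · rw [hS] at hxi
    simp at hxi
    exact i.2.2.1 hxi
  · obtain ⟨m, hm, hmm⟩ := Finset.exists_max_image S f hS
    have h1 : (i : ℝ) ∈ V (f m) := by
      refine Submodule.span_mono ?_ hxi
      intro y hy
      exact ⟨(hS1 y hy).1, hmm y hy⟩
    exact absurd ((hρ i i.2.1).2 _ h1) (not_le.2 (hS1 m hm).2)

theorem main (Z : Set ℝ) (hZ : ∀ z ∈ Z, -z ∈ Z) (hc : #Z ≤ ℵ₁) : @MeasurableSet ℝ mg Z := by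
  classical
  let κ : Type := (ℵ₁ : Cardinal.{0}).ord.ToType
  have hκ : ∀ i : κ, (Iic i).Countable := by
    intro i
    have h1 : #(Iio i) < ℵ₁ := Cardinal.mk_Iio_toType_ord_lt i
    have h2 : (Iio i).Countable := by
      rw [← Cardinal.le_aleph0_iff_set_countable]
      have h1' : #(Iio i) < Order.succ ℵ₀ := by rw [Cardinal.succ_aleph0]; exact h1
      exact Order.lt_succ_iff.1 h1'
    rw [← Iio_insert]
    exact h2.insert i
  have hcard : #κ = ℵ₁ := Cardinal.mk_ord_toType _
  have hne : Nonempty κ := by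
    rw [← Cardinal.mk_ne_zero_iff, hcard]
    exact (Cardinal.aleph_pos 1).ne'
  obtain ⟨g⟩ : Nonempty (Z ↪ κ) := by
    rw [← Cardinal.le_def, hcard]; exact hc
  let f : ℝ → κ := fun x => if h : x ∈ Z then g ⟨x, h⟩ else Classical.choice hne
  have hf : InjOn f Z := by
    intro x hx y hy hxy
    have h1 : f x = g ⟨x, hx⟩ := dif_pos hx
    have h2 : f y = g ⟨y, hy⟩ := dif_pos hy
    rw [h1, h2] at hxy
    exact congrArg Subtype.val (g.injective hxy)
  obtain ⟨P, hP1, hP2, hP3⟩ := decomp Z hκ f hf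
  have h0 : @MeasurableSet ℝ mg ({0} : Set ℝ) := by
    have := meas_grp ⊥
    rwa [AddSubgroup.coe_bot] at this
  have hU : @MeasurableSet ℝ mg (⋃ n, {x | x ∈ P n ∨ -x ∈ P n}) :=
    MeasurableSet.iUnion fun n => indep_meas _ (hP1 n)
  have hsub : (⋃ n, {x | x ∈ P n ∨ -x ∈ P n}) ⊆ Z := by
    intro x hx
    rw [mem_iUnion] at hx
    obtain ⟨n, h | h⟩ := hx
    · exact hP2 n h
    · have := hZ _ (hP2 n h)
      rwa [neg_neg] at this
  by_cases hz0 : (0 : ℝ) ∈ Z
  · have : Z = {0} ∪ ⋃ n, {x | x ∈ P n ∨ -x ∈ P n} := by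
      ext x
      constructor
      · intro hx
        by_cases hx0 : x = 0
        · exact Or.inl hx0
        · obtain ⟨n, hn⟩ := hP3 x hx hx0
          exact Or.inr (mem_iUnion.2 ⟨n, Or.inl hn⟩)
      · rintro (hx | hx)
        · rw [mem_singleton_iff.1 hx]; exact hz0
        · exact hsub hx
    rw [this]
    exact h0.union hU
  · have : Z = ⋃ n, {x | x ∈ P n ∨ -x ∈ P n} := by
      ext x
      constructor
      · intro hx
        have hx0 : x ≠ 0 := by rintro rfl; exact hz0 hx
        obtain ⟨n, hn⟩ := hP3 x hx hx0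
        exact mem_iUnion.2 ⟨n, Or.inl hn⟩
      · intro hx; exact hsub hx
    rw [this]
    exact hU

end Pool.Agent.H13.Symm
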