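import Pool.Agent.H13.Symm.Core

/-! All symmetric sets are in the sigma-algebra generated by subgroups iff every planar set is in
the sigma-algebra generated by rectangles. -/

set_option autoImplicit false

namespace Pool.Agent.H13.Symm

open Set Cardinal

/-- the sigma-algebra generated by arbitrary rectangles -/
abbrev rc : MeasurableSpace (ℝ × ℝ) :=
  MeasurableSpace.generateFrom {S : Set (ℝ × ℝ) | ∃ A C : Set ℝ, A ×ˢ C = S}

theorem meas_rect (A C : Set ℝ) : @MeasurableSet (ℝ × ℝ) rc (A ×ˢ C) :=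
  MeasurableSpace.measurableSet_generateFrom ⟨A, C, rfl⟩

theorem pre (φ : ℝ →+ ℝ) {Z : Set ℝ} (hZ : @MeasurableSet ℝ mg Z) :
    @MeasurableSet ℝ mg (φ ⁻¹' Z) := by
  have : @Measurable ℝ ℝ mg mg φ := by
    refine @measurable_generateFrom ℝ ℝ mg _ φ ?_
    rintro _ ⟨G, rfl⟩
    exact meas_grp (G.comap φ)
  exact this hZ

section basis
variable {ι : Type} (b : Module.Basis ι ℚ ℝ)

theorem one (Z : Set ℝ) (hZ : ∀ z ∈ Z, -z ∈ Z)
    (h : ∀ x ∈ Z, (b.repr x).support.card ≤ 1) : @MeasurableSet ℝ mg Z := by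
  classical
  let T : ℚ → Set ι := fun r => {i | r • b i ∈ Z}
  let A : ℚ → Set ℝ := fun r => (AddMonoidHom.mulLeft ((r : ℝ)⁻¹)) ⁻¹' (R b (T r))
  have hA : ∀ r, @MeasurableSet ℝ mg (A r) := fun r => pre _ (R_meas b (T r))
  have h0 : @MeasurableSet ℝ mg ({0} ∩ Z) := by
    by_cases hz : (0 : ℝ) ∈ Z
    · have : ({0} ∩ Z : Set ℝ) = ((⊥ : AddSubgroup ℝ) : Set ℝ) := by
        rw [AddSubgroup.coe_bot]
        exact inter_eq_left.2 (singleton_subset_iff.2 hz)
      rw [this]; exact meas_grp _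
    · have : ({0} ∩ Z : Set ℝ) = ∅ := by
        ext x
        simp only [mem_inter_iff, mem_singleton_iff, mem_empty_iff_false, iff_false, not_and]
        rintro rfl; exact hz
      rw [this]; exact @MeasurableSet.empty _ mg
  have hAm : ∀ r : ℚ, r ≠ 0 → ∀ x, x ∈ A r ↔ ∃ i ∈ T r, x = r • b i ∨ x = - (r • b i) := by
    intro r hr x
    have hr' : (r : ℝ) ≠ 0 := by exact_mod_cast hr
    show (r : ℝ)⁻¹ * x ∈ R b (T r) ↔ _
    rw [R_eq]
    refine exists_congr fun i => and_congr_right fun _ => ?_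
    rw [Rat.smul_def]
    constructor
    · rintro (h | h)
      · left; rw [← h, mul_inv_cancel_left₀ hr']
      · right; rw [neg_eq_neg_one_mul, ← mul_assoc, mul_comm (-1) (r : ℝ), mul_assoc,
          ← neg_eq_neg_one_mul, ← h, mul_inv_cancel_left₀ hr']
    · rintro (h | h)
      · left; rw [h, inv_mul_cancel_left₀ hr']
      · right; rw [h, mul_neg, inv_mul_cancel_left₀ hr']
  have hU : @MeasurableSet ℝ mg (⋃ r : {r : ℚ // r ≠ 0}, A r) := MeasurableSet.iUnion fun r => hA r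
  have : Z = ({0} ∩ Z) ∪ ⋃ r : {r : ℚ // r ≠ 0}, A r := by
    ext x
    constructor
    · intro hx
      by_cases hx0 : x = 0
      · exact Or.inl ⟨hx0, hx⟩
      · right
        haveI : Nonempty ι := b.index_nonempty
        obtain ⟨i, hi⟩ := Finsupp.card_support_le_one.1 (h x hx)
        have hx' : x = (b.repr x i) • b i := by
          apply b.repr.injective
          rw [map_smul, Module.Basis.repr_self, Finsupp.smul_single, smul_eq_mul, mul_one]
          exact hi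
        have hne : b.repr x i ≠ 0 := by
          intro h0
          rw [h0, zero_smul] at hx'
          exact hx0 hx'
        refine mem_iUnion.2 ⟨⟨b.repr x i, hne⟩, ?_⟩
        rw [hAm _ hne]
        refine ⟨i, ?_, Or.inl hx'⟩
        show b.repr x i • b i ∈ Z
        rw [← hx']; exact hx
    · rintro (hx | hx)
      · exact hx.2
      · rw [mem_iUnion] at hx
        obtain ⟨⟨r, hr⟩, hx⟩ := hx
        rw [hAm r hr] at hx
        obtain ⟨i, hi, rfl | rfl⟩ := hx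
        · exact hi
        · exact hZ _ hi
  rw [this]
  exact h0.union hU

open Classical in
/-- lower part -/
noncomputable def Lq (q : ℚ) : ℝ →+ ℝ :=
  AddMonoidHom.mk' (fun x => b.repr.symm ((b.repr x).filter (fun i => b i < (q : ℝ)))) (by
    intro x y
    rw [map_add, Finsupp.filter_add, map_add])

open Classical in
/-- upper part -/
noncomputable def Uq (q : ℚ) : ℝ →+ ℝ :=
  AddMonoidHom.mk' (fun x => b.repr.symm ((b.repr x).filter (fun i => ¬ b i < (q : ℝ)))) (by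
    intro x y
    rw [map_add, Finsupp.filter_add, map_add])

open Classical in
theorem repr_Lq (q : ℚ) (x : ℝ) :
    b.repr (Lq b q x) = (b.repr x).filter (fun i => b i < (q : ℝ)) := by
  show b.repr (b.repr.symm _) = _
  rw [LinearEquiv.apply_symm_apply]

open Classical in
theorem repr_Uq (q : ℚ) (x : ℝ) :
    b.repr (Uq b q x) = (b.repr x).filter (fun i => ¬ b i < (q : ℝ)) := by
  show b.repr (b.repr.symm _) = _
  rw [LinearEquiv.apply_symm_apply]

theorem LU (q : ℚ) (x : ℝ) : Lq b q x + Uq b q x = x := by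
  classical
  apply b.repr.injective
  rw [map_add, repr_Lq, repr_Uq]
  exact Finsupp.filter_add_filter_not _ _

open Classical in
/-- functionals -/
noncomputable def cc (p : ℚ) : ℝ →ₗ[ℚ] ℚ := b.constr ℚ (fun i => if b i < (p : ℝ) then (1 : ℚ) else 0)

theorem cc_ne {x : ℝ} (hx : x ≠ 0) : ∃ p : ℚ, cc b p x ≠ 0 := by
  classical
  have hs : (b.repr x).support.Nonempty := by
    rw [Finsupp.support_nonempty_iff]
    intro h
    exact hx (by simpa using h)
  obtain ⟨i, hi, hmin⟩ := Finset.exists_min_image _ (fun i => b i) hs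
  have hp : ∃ p : ℚ, b i < p ∧ ∀ j ∈ (b.repr x).support, j ≠ i → ¬ b j < (p : ℝ) := by
    rcases ((b.repr x).support.erase i).eq_empty_or_nonempty with h | h
    · obtain ⟨p, hp⟩ := exists_rat_gt (b i)
      refine ⟨p, hp, fun j hj hji => ?_⟩
      have : j ∈ (b.repr x).support.erase i := Finset.mem_erase.2 ⟨hji, hj⟩
      rw [h] at this
      simp at this
    · obtain ⟨j0, hj0, hmin0⟩ := Finset.exists_min_image _ (fun i => b i) h
      have hj0' := Finset.mem_erase.1 hj0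
      have hlt : b i < b j0 := lt_of_le_of_ne (hmin j0 hj0'.2) fun h => hj0'.1 (b.injective h).symm
      obtain ⟨p, hp1, hp2⟩ := exists_rat_btwn hlt
      refine ⟨p, hp1, fun j hj hji => ?_⟩
      exact not_lt.2 (hp2.le.trans (hmin0 j (Finset.mem_erase.2 ⟨hji, hj⟩)))
  obtain ⟨p, hp1, hp2⟩ := hp
  refine ⟨p, ?_⟩
  have : cc b p x = b.repr x i := by
    rw [cc, Module.Basis.constr_apply, Finsupp.sum, Finset.sum_eq_single i]
    · rw [if_pos hp1, smul_eq_mul, mul_one]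
    · intro j hj hji
      rw [if_neg (hp2 j hj hji), smul_zero]
    · intro h; exact absurd hi h
  rw [this]
  exact Finsupp.mem_support_iff.1 hi

theorem cut {x : ℝ} {k : ℕ} (hx : (b.repr x).support.card = k + 2) :
    ∃ q : ℚ, (b.repr (Lq b q x)).support.card ≤ k + 1 ∧ (b.repr (Uq b q x)).support.card ≤ 1 ∧
      Lq b q x ≠ 0 ∧ Uq b q x ≠ 0 := by
  classical
  have hs : (b.repr x).support.Nonempty := by
    rw [← Finset.card_pos]; omega
  obtain ⟨i, hi, hmax⟩ := Finset.exists_max_image _ (fun i => b i) hs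
  have hc : ((b.repr x).support.erase i).card = k + 1 := by
    rw [Finset.card_erase_of_mem hi, hx]; rfl
  have hs' : ((b.repr x).support.erase i).Nonempty := by
    rw [← Finset.card_pos]; omega
  obtain ⟨j, hj, hmaxj⟩ := Finset.exists_max_image _ (fun i => b i) hs'
  have hj' := Finset.mem_erase.1 hj
  have hlt : b j < b i := lt_of_le_of_ne (hmax j hj'.2) fun h => hj'.1 (b.injective h)
  obtain ⟨q, hq1, hq2⟩ := exists_rat_btwn hlt
  have hL : (b.repr (Lq b q x)).support ⊆ (b.repr x).support.erase i := by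
    intro l hl
    rw [repr_Lq, Finsupp.support_filter, Finset.mem_filter] at hl
    refine Finset.mem_erase.2 ⟨?_, hl.1⟩
    rintro rfl
    exact absurd hl.2 (not_lt.2 hq2.le)
  have hUs : (b.repr (Uq b q x)).support ⊆ {i} := by
    intro l hl
    rw [repr_Uq, Finsupp.support_filter, Finset.mem_filter] at hl
    rw [Finset.mem_singleton]
    by_contra hli
    exact hl.2 (lt_of_le_of_lt (hmaxj l (Finset.mem_erase.2 ⟨hli, hl.1⟩)) hq1)
  refine ⟨q, ?_, ?_, ?_, ?_⟩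
  · exact (Finset.card_le_card hL).trans hc.le
  · exact (Finset.card_le_card hUs).trans (by simp)
  · intro h0
    have h1 : b.repr (Lq b q x) j = 0 := by rw [h0]; simp
    rw [repr_Lq, Finsupp.filter_apply_pos (fun i => b i < (q : ℝ)) _ hq1] at h1
    exact (Finsupp.mem_support_iff.1 hj'.2) h1
  · intro h0
    have h1 : b.repr (Uq b q x) i = 0 := by rw [h0]; simp
    rw [repr_Uq, Finsupp.filter_apply_pos (fun i => ¬ b i < (q : ℝ)) _ (not_lt.2 hq2.le)] at h1
    exact (Finsupp.mem_support_iff.1 hi) h1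

/-- the coded piece -/
def E (k : ℕ) (q p p' r s : ℚ) (Q : Set (ℝ × ℝ)) : Set ℝ :=
  {x | ((b.repr (Lq b q x)).support.card ≤ k + 1 ∧ (b.repr (Uq b q x)).support.card ≤ 1) ∧
    ((cc b p (Lq b q x) = r ∧ cc b p' (Uq b q x) = s ∧ (Lq b q x, Uq b q x) ∈ Q) ∨
      (cc b p (Lq b q x) = -r ∧ cc b p' (Uq b q x) = -s ∧ (-Lq b q x, -Uq b q x) ∈ Q))}

theorem supp_neg (y : ℝ) : (b.repr (-y)).support = (b.repr y).support := by
  rw [map_neg, Finsupp.support_neg]

theorem E_rect (k : ℕ) (q p p' r s : ℚ) (hr : r ≠ 0) (hs : s ≠ 0) (A C : Set ℝ)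
    (ih : ∀ Z : Set ℝ, (∀ z ∈ Z, -z ∈ Z) → (∀ x ∈ Z, (b.repr x).support.card ≤ k + 1) →
      @MeasurableSet ℝ mg Z) : @MeasurableSet ℝ mg (E b k q p p' r s (A ×ˢ C)) := by
  let A' : Set ℝ := {y | (b.repr y).support.card ≤ k + 1 ∧
    ((cc b p y = r ∧ y ∈ A) ∨ (cc b p y = -r ∧ -y ∈ A))}
  let C' : Set ℝ := {y | (b.repr y).support.card ≤ 1 ∧
    ((cc b p' y = s ∧ y ∈ C) ∨ (cc b p' y = -s ∧ -y ∈ C))}
  have hA' : @MeasurableSet ℝ mg A' := by
    refine ih A' ?_ fun x hx => hx.1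
    rintro y ⟨hy, h | h⟩
    · exact ⟨by rw [supp_neg]; exact hy, Or.inr ⟨by rw [map_neg, h.1], by rw [neg_neg]; exact h.2⟩⟩
    · exact ⟨by rw [supp_neg]; exact hy, Or.inl ⟨by rw [map_neg, h.1, neg_neg], h.2⟩⟩
  have hC' : @MeasurableSet ℝ mg C' := by
    refine one b C' ?_ fun x hx => hx.1
    rintro y ⟨hy, h | h⟩
    · exact ⟨by rw [supp_neg]; exact hy, Or.inr ⟨by rw [map_neg, h.1], by rw [neg_neg]; exact h.2⟩⟩
    · exact ⟨by rw [supp_neg]; exact hy, Or.inl ⟨by rw [map_neg, h.1, neg_neg], h.2⟩⟩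
  let K : ℝ →+ ℚ := (AddMonoidHom.mulLeft s).comp ((cc b p).toAddMonoidHom.comp (Lq b q)) -
    (AddMonoidHom.mulLeft r).comp ((cc b p').toAddMonoidHom.comp (Uq b q))
  have hK : ∀ x, x ∈ K.ker ↔ s * cc b p (Lq b q x) - r * cc b p' (Uq b q x) = 0 := fun x => Iff.rfl
  have hE : E b k q p p' r s (A ×ˢ C) = ((Lq b q) ⁻¹' A' ∩ (Uq b q) ⁻¹' C') ∩ (K.ker : Set ℝ) := by
    ext x
    constructor
    · rintro ⟨⟨h1, h2⟩, ⟨h3, h4, h5⟩ | ⟨h3, h4, h5⟩⟩
      · refine ⟨⟨⟨h1, Or.inl ⟨h3, h5.1⟩⟩, ⟨h2, Or.inl ⟨h4, h5.2⟩⟩⟩, ?_⟩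
        show x ∈ K.ker
        rw [hK, h3, h4]; ring
      · refine ⟨⟨⟨h1, Or.inr ⟨h3, h5.1⟩⟩, ⟨h2, Or.inr ⟨h4, h5.2⟩⟩⟩, ?_⟩
        show x ∈ K.ker
        rw [hK, h3, h4]; ring
    · rintro ⟨⟨⟨h1, h3⟩, ⟨h2, h4⟩⟩, h5⟩
      have h5' : x ∈ K.ker := h5
      rw [hK] at h5'
      refine ⟨⟨h1, h2⟩, ?_⟩
      rcases h3 with ⟨h3, h3'⟩ | ⟨h3, h3'⟩
      · rcases h4 with ⟨h4, h4'⟩ | ⟨h4, h4'⟩
        · exact Or.inl ⟨h3, h4, h3', h4'⟩
        · exfalso
          rw [h3, h4] at h5'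
          have : r * s = 0 := by linarith
          exact (mul_ne_zero hr hs) this
      · rcases h4 with ⟨h4, h4'⟩ | ⟨h4, h4'⟩
        · exfalso
          rw [h3, h4] at h5'
          have : r * s = 0 := by linarith
          exact (mul_ne_zero hr hs) this
        · exact Or.inr ⟨h3, h4, h3', h4'⟩
  rw [hE]
  exact ((pre _ hA').inter (pre _ hC')).inter (meas_grp _)

theorem E_meas (k : ℕ) (q p p' r s : ℚ) (hr : r ≠ 0) (hs : s ≠ 0)
    (ih : ∀ Z : Set ℝ, (∀ z ∈ Z, -z ∈ Z) → (∀ x ∈ Z, (b.repr x).support.card ≤ k + 1) →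
      @MeasurableSet ℝ mg Z) (Q : Set (ℝ × ℝ)) (hQ : @MeasurableSet (ℝ × ℝ) rc Q) :
    @MeasurableSet ℝ mg (E b k q p p' r s Q) := by
  have huniv : @MeasurableSet ℝ mg (E b k q p p' r s univ) := by
    have := E_rect b k q p p' r s hr hs univ univ ih
    rwa [univ_prod_univ] at this
  refine MeasurableSpace.generateFrom_induction _
    (fun Q _ => @MeasurableSet ℝ mg (E b k q p p' r s Q)) ?_ ?_ ?_ ?_ Q hQ
  · rintro _ ⟨A, C, rfl⟩ _
    exact E_rect b k q p p' r s hr hs A C ih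
  · have : E b k q p p' r s ∅ = ∅ := by
      ext x
      constructor
      · rintro ⟨_, ⟨_, _, h⟩ | ⟨_, _, h⟩⟩ <;> exact h
      · intro h; exact absurd h (notMem_empty x)
    rw [this]; exact @MeasurableSet.empty _ mg
  · intro Q _ hQ
    have : E b k q p p' r s Qᶜ = E b k q p p' r s univ \ E b k q p p' r s Q := by
      ext x
      constructor
      · rintro ⟨h1, ⟨h2, h3, h4⟩ | ⟨h2, h3, h4⟩⟩
        · refine ⟨⟨h1, Or.inl ⟨h2, h3, mem_univ _⟩⟩, ?_⟩
          rintro ⟨_, ⟨h5, h6, h7⟩ | ⟨h5, h6, h7⟩⟩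
          · exact h4 h7
          · apply hr; linarith
        · refine ⟨⟨h1, Or.inr ⟨h2, h3, mem_univ _⟩⟩, ?_⟩
          rintro ⟨_, ⟨h5, h6, h7⟩ | ⟨h5, h6, h7⟩⟩
          · apply hr; linarith
          · exact h4 h7
      · rintro ⟨⟨h1, ⟨h2, h3, _⟩ | ⟨h2, h3, _⟩⟩, h8⟩
        · refine ⟨h1, Or.inl ⟨h2, h3, fun h => h8 ⟨h1, Or.inl ⟨h2, h3, h⟩⟩⟩⟩
        · refine ⟨h1, Or.inr ⟨h2, h3, fun h => h8 ⟨h1, Or.inr ⟨h2, h3, h⟩⟩⟩⟩
    rw [this]
    exact huniv.diff hQ
  · intro f _ hf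
    have : E b k q p p' r s (⋃ n, f n) = ⋃ n, E b k q p p' r s (f n) := by
      ext x
      rw [mem_iUnion]
      constructor
      · rintro ⟨h1, ⟨h2, h3, h4⟩ | ⟨h2, h3, h4⟩⟩
        · obtain ⟨n, hn⟩ := mem_iUnion.1 h4
          exact ⟨n, h1, Or.inl ⟨h2, h3, hn⟩⟩
        · obtain ⟨n, hn⟩ := mem_iUnion.1 h4
          exact ⟨n, h1, Or.inr ⟨h2, h3, hn⟩⟩
      · rintro ⟨n, h1, ⟨h2, h3, h4⟩ | ⟨h2, h3, h4⟩⟩
        · exact ⟨h1, Or.inl ⟨h2, h3, mem_iUnion.2 ⟨n, h4⟩⟩⟩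
        · exact ⟨h1, Or.inr ⟨h2, h3, mem_iUnion.2 ⟨n, h4⟩⟩⟩
    rw [this]
    exact MeasurableSet.iUnion hf

theorem step (hK : ∀ Q : Set (ℝ × ℝ), @MeasurableSet (ℝ × ℝ) rc Q) (k : ℕ) :
    ∀ Z : Set ℝ, (∀ z ∈ Z, -z ∈ Z) → (∀ x ∈ Z, (b.repr x).support.card ≤ k + 1) →
      @MeasurableSet ℝ mg Z := by
  induction k with
  | zero => intro Z hZ h; exact one b Z hZ h
  | succ k ih =>
    intro Z hZ h
    let Q : Set (ℝ × ℝ) := {y | y.1 + y.2 ∈ Z}
    have h1 : @MeasurableSet ℝ mg {x | x ∈ Z ∧ (b.repr x).support.card ≤ k + 1} := by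
      refine ih _ ?_ fun x hx => hx.2
      rintro x ⟨hx, hx'⟩
      exact ⟨hZ x hx, by rw [supp_neg]; exact hx'⟩
    have h2 : @MeasurableSet ℝ mg (⋃ q : ℚ, ⋃ p : ℚ, ⋃ p' : ℚ, ⋃ r : {r : ℚ // r ≠ 0},
        ⋃ s : {s : ℚ // s ≠ 0}, E b k q p p' r s Q) := by
      refine MeasurableSet.iUnion fun q => MeasurableSet.iUnion fun p => MeasurableSet.iUnion
        fun p' => MeasurableSet.iUnion fun r => MeasurableSet.iUnion fun s => ?_
      exact E_meas b k q p p' r s r.2 s.2 ih Q (hK Q)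
    have : Z = {x | x ∈ Z ∧ (b.repr x).support.card ≤ k + 1} ∪
        (⋃ q : ℚ, ⋃ p : ℚ, ⋃ p' : ℚ, ⋃ r : {r : ℚ // r ≠ 0},
        ⋃ s : {s : ℚ // s ≠ 0}, E b k q p p' r s Q) := by
      ext x
      constructor
      · intro hx
        by_cases hc : (b.repr x).support.card ≤ k + 1
        · exact Or.inl ⟨hx, hc⟩
        · right
          have hc2 : (b.repr x).support.card = k + 2 := by
            have := h x hx
            omega
          obtain ⟨q, hq1, hq2, hq3, hq4⟩ := cut b hc2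
          obtain ⟨p, hp⟩ := cc_ne b hq3
          obtain ⟨p', hp'⟩ := cc_ne b hq4
          refine mem_iUnion.2 ⟨q, mem_iUnion.2 ⟨p, mem_iUnion.2 ⟨p', mem_iUnion.2 ⟨⟨_, hp⟩,
            mem_iUnion.2 ⟨⟨_, hp'⟩, ⟨hq1, hq2⟩, Or.inl ⟨rfl, rfl, ?_⟩⟩⟩⟩⟩⟩
          show Lq b q x + Uq b q x ∈ Z
          rw [LU]; exact hx
      · rintro (hx | hx)
        · exact hx.1
        · simp only [mem_iUnion] at hx
          obtain ⟨q, p, p', r, s, _, ⟨_, _, h4⟩ | ⟨_, _, h4⟩⟩ := hx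
          · have h5 : Lq b q x + Uq b q x ∈ Z := h4
            rwa [LU] at h5
          · have h5 : -Lq b q x + -Uq b q x ∈ Z := h4
            rw [← neg_add, LU] at h5
            have := hZ _ h5
            rwa [neg_neg] at this
    rw [this]
    exact h1.union h2

include b in
theorem backward (hK : ∀ Q : Set (ℝ × ℝ), @MeasurableSet (ℝ × ℝ) rc Q)
    (Z : Set ℝ) (hZ : ∀ z ∈ Z, -z ∈ Z) : @MeasurableSet ℝ mg Z := by
  have : Z = ⋃ k : ℕ, {x | x ∈ Z ∧ (b.repr x).support.card ≤ k + 1} := by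
    ext x
    rw [mem_iUnion]
    constructor
    · intro hx
      exact ⟨(b.repr x).support.card, hx, Nat.le_succ _⟩
    · rintro ⟨k, hx, _⟩; exact hx
  rw [this]
  refine MeasurableSet.iUnion fun k => step b hK k _ ?_ fun x hx => hx.2
  rintro x ⟨hx, hx'⟩
  exact ⟨hZ x hx, by rw [supp_neg]; exact hx'⟩

include b in
theorem forward (e : ℝ ⊕ ℝ → ι) (he : Function.Injective e)
    (H : ∀ Z : Set ℝ, (∀ z ∈ Z, -z ∈ Z) → @MeasurableSet ℝ mg Z) (Q : Set (ℝ × ℝ)) :
    @MeasurableSet (ℝ × ℝ) rc Q := by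
  classical
  let θ : ℝ × ℝ → ℝ := fun y => b (e (Sum.inl y.1)) + b (e (Sum.inr y.2))
  have hθ : @Measurable (ℝ × ℝ) ℝ rc mg θ := by
    refine @measurable_generateFrom (ℝ × ℝ) ℝ rc _ θ ?_
    rintro _ ⟨G, rfl⟩
    let φ : ℝ → ℝ := fun x => (QuotientAddGroup.mk (b (e (Sum.inl x))) : ℝ ⧸ G).out
    let ψ : ℝ → ℝ := fun y => (QuotientAddGroup.mk (-b (e (Sum.inr y))) : ℝ ⧸ G).out
    have hφψ : ∀ x y, φ x = ψ y ↔ θ (x, y) ∈ G := by
      intro x y
      have h1 : φ x = ψ y ↔ (QuotientAddGroup.mk (b (e (Sum.inl x))) : ℝ ⧸ G) =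
          QuotientAddGroup.mk (-b (e (Sum.inr y))) :=
        ⟨fun h => Quotient.out_injective h, fun h => congrArg Quotient.out h⟩
      rw [h1, QuotientAddGroup.eq]
      show -b (e (Sum.inl x)) + -b (e (Sum.inr y)) ∈ G ↔ b (e (Sum.inl x)) + b (e (Sum.inr y)) ∈ G
      rw [← neg_add, neg_mem_iff]
    have hset : θ ⁻¹' (G : Set ℝ) = ⋂ q : ℚ, (({x | φ x < q} ×ˢ {y | ψ y < q}) ∪
        ({x | (q : ℝ) ≤ φ x} ×ˢ {y | (q : ℝ) ≤ ψ y})) := by
      ext ⟨x, y⟩
      show θ (x, y) ∈ G ↔ _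
      rw [← hφψ, mem_iInter]
      constructor
      · intro h q
        rcases lt_or_ge (φ x) (q : ℝ) with h1 | h1
        · exact Or.inl ⟨h1, by show ψ y < q; rw [← h]; exact h1⟩
        · exact Or.inr ⟨h1, by show (q : ℝ) ≤ ψ y; rw [← h]; exact h1⟩
      · intro h
        by_contra hne
        rcases lt_or_gt_of_ne hne with h1 | h1
        · obtain ⟨q, hq1, hq2⟩ := exists_rat_btwn h1
          rcases h q with h2 | h2
          · exact absurd h2.2 (not_lt.2 hq2.le)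
          · exact absurd h2.1 (not_le.2 hq1)
        · obtain ⟨q, hq1, hq2⟩ := exists_rat_btwn h1
          rcases h q with h2 | h2
          · exact absurd h2.1 (not_lt.2 hq2.le)
          · exact absurd h2.2 (not_le.2 hq1)
    rw [hset]
    exact MeasurableSet.iInter fun q => (meas_rect _ _).union (meas_rect _ _)
  let Z : Set ℝ := {z | ∃ y ∈ Q, z = θ y ∨ z = - θ y}
  have hZ : ∀ z ∈ Z, -z ∈ Z := by
    rintro z ⟨y, hy, rfl | rfl⟩
    · exact ⟨y, hy, Or.inr rfl⟩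
    · exact ⟨y, hy, Or.inl (neg_neg _)⟩
  have hrl : ∀ (y : ℝ × ℝ) (u : ℝ), b.repr (θ y) (e (Sum.inl u)) = if y.1 = u then 1 else 0 := by
    intro y u
    show b.repr (b (e (Sum.inl y.1)) + b (e (Sum.inr y.2))) (e (Sum.inl u)) = _
    rw [map_add, Finsupp.add_apply, Module.Basis.repr_self, Module.Basis.repr_self,
      Finsupp.single_apply, Finsupp.single_apply]
    have h1 : e (Sum.inr y.2) ≠ e (Sum.inl u) := fun h => by cases he h
    rw [if_neg h1, add_zero]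
    by_cases h : y.1 = u
    · rw [if_pos h, if_pos (by rw [h])]
    · rw [if_neg h, if_neg]
      intro h'
      exact h (Sum.inl_injective (he h'))
  have hrr : ∀ (y : ℝ × ℝ) (u : ℝ), b.repr (θ y) (e (Sum.inr u)) = if y.2 = u then 1 else 0 := by
    intro y u
    show b.repr (b (e (Sum.inl y.1)) + b (e (Sum.inr y.2))) (e (Sum.inr u)) = _
    rw [map_add, Finsupp.add_apply, Module.Basis.repr_self, Module.Basis.repr_self,
      Finsupp.single_apply, Finsupp.single_apply]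
    have h1 : e (Sum.inl y.1) ≠ e (Sum.inr u) := fun h => by cases he h
    rw [if_neg h1, zero_add]
    by_cases h : y.2 = u
    · rw [if_pos h, if_pos (by rw [h])]
    · rw [if_neg h, if_neg]
      intro h'
      exact h (Sum.inr_injective (he h'))
  have hQ : Q = θ ⁻¹' Z := by
    ext y
    constructor
    · intro hy; exact ⟨y, hy, Or.inl rfl⟩
    · rintro ⟨y', hy', h | h⟩
      · have h1 := hrl y y.1
        rw [h, hrl, if_pos rfl] at h1
        have h2 := hrr y y.2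
        rw [h, hrr, if_pos rfl] at h2
        have h3 : y'.1 = y.1 := by
          by_contra hne; rw [if_neg hne] at h1; exact zero_ne_one h1
        have h4 : y'.2 = y.2 := by
          by_contra hne; rw [if_neg hne] at h2; exact zero_ne_one h2
        rw [← Prod.ext h3 h4]; exact hy'
      · exfalso
        have h1 := hrl y y.1
        rw [h, map_neg, Finsupp.neg_apply, hrl, if_pos rfl] at h1
        by_cases hne : y'.1 = y.1
        · rw [if_pos hne] at h1; norm_num at h1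
        · rw [if_neg hne] at h1; norm_num at h1
  rw [hQ]
  exact hθ (H Z hZ)

end basis

theorem equiv : (∀ Z : Set ℝ, (∀ z ∈ Z, -z ∈ Z) → @MeasurableSet ℝ mg Z) ↔
    ∀ Q : Set (ℝ × ℝ), @MeasurableSet (ℝ × ℝ) rc Q := by
  let b := Module.Basis.ofVectorSpace ℚ ℝ
  constructor
  · intro H
    have hcard : #(Module.Basis.ofVectorSpaceIndex ℚ ℝ) = 𝔠 := by
      rw [b.mk_eq_rank'', Real.rank_rat_real]
    have hsum : #(ℝ ⊕ ℝ) = 𝔠 := by
      rw [Cardinal.mk_sum, Cardinal.lift_id, Cardinal.mk_real, Cardinal.continuum_add_self]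
    obtain ⟨e⟩ : Nonempty ((ℝ ⊕ ℝ) ↪ Module.Basis.ofVectorSpaceIndex ℚ ℝ) := by
      rw [← Cardinal.le_def, hsum, hcard]
    exact forward b e e.injective H
  · intro hK Z hZ
    exact backward b hK Z hZ

end Pool.Agent.H13.Symm
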